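import Pool.Agent.Lib.MP_4fbe7c_an.WN.H31.Lob
import Pool.Agent.Lib.MP_4fbe7c_an.ND.H47.Clo

/-!
Project WN, module CLO (helper61): if the dissipation is small and `f 0` is not much larger than
`θ`, then the state is close to the steady state.
-/

set_option autoImplicit false

open Set MeasureTheory

namespace Pool.Agent.Lib.MP_4fbe7c_an.WN.H61

open Pool.Agent.Lib.MP_4fbe7c_an.UL Pool.Agent.Lib.MP_4fbe7c_an.ND

section cont

variable {p n : ℕ} {s : Set (Eu p)} {r : ℕ → Eu p → ℝ}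

theorem cont_Nq (κ : ℕ → ℝ) (a b : ℝ) (cr : ∀ i, i ≤ n → ContinuousOn (r i) s) :
    ContinuousOn (fun x => Nq n κ a b (fun i => r i x)) s := by
  unfold Nq
  refine (continuousOn_const.mul ((H31.cont_qv cr 1).pow 2)).add (continuousOn_const.mul ?_)
  exact continuousOn_finsetSum _ fun k _ => continuousOn_const.mul ((H31.cont_qv cr k).pow 2)

theorem cont_Sb (κ : ℕ → ℝ) (a b : ℝ) (cr : ∀ i, i ≤ n → ContinuousOn (r i) s) (i : ℕ) :
    ContinuousOn (fun x => Sb n κ a b (fun i => r i x) i) s := by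
  unfold Sb
  refine (continuousOn_const.mul (H31.cont_qv cr 1)).add (continuousOn_const.mul ?_)
  exact continuousOn_finsetSum _ fun k _ => continuousOn_const.mul (H31.cont_qv cr k)

theorem cont_Ff (hPhi : PhiStatement) (κ : ℕ → ℝ) (a b : ℝ)
    (cr : ∀ i, i ≤ n → ContinuousOn (r i) s) (pr : ∀ x ∈ s, 0 < r 0 x) (i : ℕ) :
    ContinuousOn (fun x => Ff n κ a b (fun i => r i x) i) s := by
  have cP : ContinuousOn Ph1 (Ioi 0) := fun t ht =>
    (hPhi.1 t ht).2.1.continuousAt.continuousWithinAt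
  have c0 : ContinuousOn (fun x => Ph1 (r 0 x)) s := cP.comp (cr 0 (Nat.zero_le n)) pr
  have ce : ContinuousOn (fun x => Real.exp (4 - 4 * qv n (fun i => r i x) 0)) s :=
    Real.continuous_exp.comp_continuousOn
      (continuousOn_const.sub (continuousOn_const.mul (H31.cont_qv cr 0)))
  have ch : ContinuousOn (fun x => hw (qv n (fun i => r i x) 0)) s := by
    unfold hw
    exact (continuousOn_const.add ce).div_const 2
  have ch1 : ContinuousOn (fun x => hw1 (qv n (fun i => r i x) 0)) s := by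
    unfold hw1
    exact continuousOn_const.mul ce
  unfold Ff
  refine ContinuousOn.add ?_ ((ch1.div_const 2).mul (cont_Nq κ a b cr))
  by_cases h : i = 0
  · simp only [h, if_true]
    exact c0
  · simp only [h, if_false]
    exact (H31.cont_qv cr 1).add (ch.mul (cont_Sb κ a b cr i))

end cont

/-- `θ` is not constant. -/
theorem stdy_not_const (hOsc : OscStatement) (hThl : ThlStatement) {p : ℕ} {Ω : Set (Eu p)}
    {q m : Eu p → ℝ} {d : ℝ} {θ : Eu p → ℝ} {θ' : Eu p → Eu p} {θ'' : Eu p → Eu p →L[ℝ] Eu p}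
    (hΩ : Dom Ω q) (cm : ContinuousOn m (closure Ω))
    (hnc : ∃ x ∈ closure Ω, ∃ y ∈ closure Ω, m x ≠ m y) (hθ : Stdy Ω q m d θ θ' θ'') :
    ∃ x ∈ closure Ω, ∃ y ∈ closure Ω, θ x ≠ θ y := by
  by_contra hcon
  push Not at hcon
  obtain ⟨Kθ, -, hL⟩ := hThl p Ω q θ θ' θ'' hΩ hθ.c2 hθ.neu
  obtain ⟨l, B, hl, hlB, hb⟩ := stdy_bounds hΩ hθ
  have h1 := ND.H47.clo_zeta_pos hOsc hΩ cm hnc hθ hL fun x hx => (hb x hx).2
  have hgrad : ∀ x ∈ Ω, θ' x = 0 := by
    intro x hx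
    have h2 : θ =ᶠ[nhds x] fun _ => θ x := by
      filter_upwards [hΩ.isOpen.mem_nhds hx] with y hy
      exact hcon y (subset_closure hy) x (subset_closure hx)
    have h3 : HasGradientAt θ 0 x := (hasGradientAt_const x (θ x)).congr_of_eventuallyEq h2
    exact (hθ.c2.toC1.d1 x hx).unique h3
  have h2 : ∫ x in Ω, ‖(θ x)⁻¹ • θ' x‖ ^ 2 = 0 := by
    rw [setIntegral_congr_fun (g := fun _ => (0 : ℝ)) hΩ.measurableSet]
    · simp
    · intro x hx
      simp [hgrad x hx]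
  rw [h2] at h1
  exact lt_irrefl _ h1

/-- The gradient of `v = V / θ`. -/
theorem grad_v {p : ℕ} (n : ℕ) (t : ℝ) (t' : Eu p) (f : ℕ → ℝ) (f' : ℕ → Eu p) :
    qv n (rg t t' f f') 1 =
      qv n f 1 • (-(t ^ 2)⁻¹) • t' + t⁻¹ • qv n f' 1 := by
  unfold qv rg
  rw [Finset.sum_smul, Finset.smul_sum, ← Finset.sum_add_distrib]
  refine Finset.sum_congr rfl fun i _ => ?_
  rw [smul_sub, smul_smul, smul_smul, sub_eq_neg_add, ← neg_smul]
  congr 2
  rw [div_eq_mul_inv, sq, mul_inv]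
  ring

section state

variable {p : ℕ} {Ω : Set (Eu p)} {q m : Eu p → ℝ} {θ : Eu p → ℝ} {θ' : Eu p → Eu p}
  {θ'' : Eu p → Eu p →L[ℝ] Eu p} {n : ℕ} {ρ : ℕ → ℝ} {f : ℕ → Eu p → ℝ}
  {f' : ℕ → Eu p → Eu p}

theorem cont_DxW (hPhi : PhiStatement) (hθ : Stdy Ω q m (ρ 0) θ θ' θ'')
    (hf : ∀ i, i ≤ n → C1 Ω (f i) (f' i)) (pf : ∀ i, i ≤ n → ∀ x ∈ closure Ω, 0 < f i x) :
    ContinuousOn (fun x => ReW n ρ (θ x) (fun i => f i x)) (closure Ω) ∧
    ContinuousOn (fun x => qv n (rg (θ x) (θ' x) (fun i => f i x) (fun i => f' i x)) 1)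
      (closure Ω) ∧
    ContinuousOn (fun x => qv n (fun i => f' i x) 1) (closure Ω) ∧
    ContinuousOn (fun x => DxW n ρ θ θ' f f' x) (closure Ω) := by
  have cθ : ContinuousOn θ (closure Ω) := hθ.c2.toC1.c0
  have cθ' : ContinuousOn θ' (closure Ω) := hθ.c2.toC1.c1
  have pθ : ∀ x ∈ closure Ω, 0 < θ x := hθ.pos
  have cr : ∀ i, i ≤ n → ContinuousOn (fun x => f i x / θ x) (closure Ω) := fun i hi =>
    (hf i hi).c0.div cθ fun x hx => (pθ x hx).ne'
  have pr : ∀ x ∈ closure Ω, 0 < f 0 x / θ x := fun x hx =>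
    div_pos (pf 0 (Nat.zero_le n) x hx) (pθ x hx)
  have c1 : ContinuousOn (fun x => ReW n ρ (θ x) (fun i => f i x)) (closure Ω) := by
    unfold ReW
    refine ((H31.cont_qv (f := fun i x => f i x / θ x) cr 0).sub continuousOn_const).mul ?_
    exact continuousOn_finsetSum _ fun i hi => (cr i (Nat.lt_succ_iff.mp
      (Finset.mem_range.mp hi))).mul (cont_Ff (r := fun i x => f i x / θ x) hPhi _ _ _ cr pr i)
  have c3 : ContinuousOn (fun x => qv n (fun i => f' i x) 1) (closure Ω) := by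
    unfold qv
    exact continuousOn_finsetSum _ fun i hi =>
      (hf i (by have := (Finset.mem_Ico.mp hi).2; omega)).c1
  have c2 : ContinuousOn (fun x => qv n (rg (θ x) (θ' x) (fun i => f i x)
      (fun i => f' i x)) 1) (closure Ω) := by
    simp only [grad_v]
    exact ((H31.cont_qv (fun i hi => (hf i hi).c0) 1).smul
      (((cθ.pow 2).inv₀ fun x hx => pow_ne_zero 2 (pθ x hx).ne').neg.smul cθ')).add
      ((cθ.inv₀ fun x hx => (pθ x hx).ne').smul c3)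
  refine ⟨c1, c2, c3, ?_⟩
  unfold DxW
  exact (continuousOn_const.mul (((cθ.pow 2).mul (c2.norm.pow 2)).add
    (continuousOn_const.mul (c3.norm.pow 2)))).add ((cθ.pow 3).mul c1)

/-- The reaction term. -/
theorem reW_ge (hEsg : EsgStatement) (hW : Win n ρ) {t : ℝ} (ht : 0 < t) {g : ℕ → ℝ}
    (hg : ∀ i, i ≤ n → 0 < g i) :
    0 ≤ ReW n ρ t g ∧
    (max 0 (1 - g 0 / t)) ^ 3 ≤ 4 * ReW n ρ t g + 2 * (max 0 (1 - g 0 / t)) *
      (qv n g 1 / t) ^ 2 := by
  obtain ⟨h1, h2⟩ := hEsg n (Kr ρ) (kr ρ) (fun i => g i / t) hW.kap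
    fun i hi => div_pos (hg i hi) ht
  have h0 : 0 ≤ ReW n ρ t g := h1
  refine ⟨h0, ?_⟩
  have hv : qv n (fun i => g i / t) 1 = qv n g 1 / t := H31.qv_div g t
  have hR : qv n (fun i => g i / t) 0 = g 0 / t + qv n g 1 / t := by
    rw [qv_zero, hv]
  rcases le_total (g 0 / t) 1 with h | h
  · have h3 := h2 h
    rw [hv, hR] at h3
    have h4 : 1 / 2 * ((g 0 / t + qv n g 1 / t - 1) ^ 2 * (1 + qv n g 1 / t - g 0 / t)) ≤
        ReW n ρ t g := by
      refine h3.trans (le_of_eq ?_)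
      unfold ReW
      rw [hR]
    rw [max_eq_right (by linarith)]
    have hv0 : 0 ≤ qv n g 1 / t :=
      div_nonneg (qv_nonneg fun i hi => (hg i hi).le) ht.le
    set v := qv n g 1 / t with hvd
    set a := 1 - g 0 / t with ha
    have e1 : g 0 / t + v - 1 = v - a := by rw [ha]; ring
    have e2 : 1 + v - g 0 / t = a + v := by rw [ha]; ring
    rw [e1, e2] at h4
    have ha0 : 0 ≤ a := by rw [ha]; linarith
    nlinarith [mul_nonneg hv0 (sq_nonneg (v - a)), mul_nonneg ha0 (sq_nonneg (a - 2 * v)),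
      mul_nonneg ha0 (sq_nonneg (v - a))]
  · rw [max_eq_left (by linarith)]
    have : (0 : ℝ) ^ 3 = 0 := by norm_num
    rw [this]
    nlinarith

end state

/-- The integral of a nonnegative part of the dissipation. -/
theorem int_part {p : ℕ} {Ω : Set (Eu p)} {q : Eu p → ℝ} (hΩ : Dom Ω q) {D g : Eu p → ℝ}
    (cD : ContinuousOn D (closure Ω)) (cg : ContinuousOn g (closure Ω)) {c δ : ℝ} (hc : 0 < c)
    (h : ∀ x ∈ closure Ω, c * g x ≤ D x) (hD : ∫ x in Ω, D x < c * δ) :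
    ∫ x in Ω, g x < δ := by
  have h1 : ∫ x in Ω, c * g x ≤ ∫ x in Ω, D x :=
    setIntegral_mono_on (hΩ.integrableOn (continuousOn_const.mul cg)) (hΩ.integrableOn cD)
      hΩ.measurableSet fun x hx => h x (subset_closure hx)
  rw [integral_const_mul] at h1
  exact lt_of_mul_lt_mul_left (h1.trans_lt hD) hc.le

/-- Quotients by `θ` are Lipschitz. -/
theorem lip_div {p : ℕ} {Ω : Set (Eu p)} {g θ : Eu p → ℝ} {l B Lg Lθ A : ℝ} (hl : 0 < l)
    (hθ : ∀ x ∈ closure Ω, l ≤ θ x ∧ θ x ≤ B) (hg : ∀ x ∈ closure Ω, |g x| ≤ A)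
    (hA : 0 ≤ A) (h1 : LipOn Ω Lg g) (h2 : LipOn Ω Lθ θ) :
    LipOn Ω (|Lg| / l + A * |Lθ| / l ^ 2) (fun x => g x / θ x) := by
  intro x hx y hy
  have hx1 := hθ x hx
  have hy1 := hθ y hy
  have px : 0 < θ x := hl.trans_le hx1.1
  have py : 0 < θ y := hl.trans_le hy1.1
  have e : g x / θ x - g y / θ y = (g x - g y) / θ x + g y * (θ y - θ x) / (θ x * θ y) := by
    field_simp
    ring
  have a1 : |(g x - g y) / θ x| ≤ |Lg| / l * ‖x - y‖ := by
    rw [abs_div, abs_of_pos px, div_mul_eq_mul_div]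
    refine div_le_div₀ (by positivity) ?_ hl hx1.1
    exact (h1 x hx y hy).trans (mul_le_mul_of_nonneg_right (le_abs_self _) (norm_nonneg _))
  have a2 : |g y * (θ y - θ x) / (θ x * θ y)| ≤ A * |Lθ| / l ^ 2 * ‖x - y‖ := by
    rw [abs_div, abs_mul, abs_of_pos (mul_pos px py), div_mul_eq_mul_div]
    refine div_le_div₀ (by positivity) ?_ (by positivity) ?_
    · rw [mul_assoc]
      refine mul_le_mul (hg y hy) ?_ (abs_nonneg _) hA
      rw [abs_sub_comm]
      exact (h2 x hx y hy).trans (mul_le_mul_of_nonneg_right (le_abs_self _) (norm_nonneg _))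
    · rw [sq]
      exact mul_le_mul hx1.1 hy1.1 hl.le px.le
  have e2 : |g x / θ x - g y / θ y| ≤
      |(g x - g y) / θ x| + |g y * (θ y - θ x) / (θ x * θ y)| := by
    rw [e]
    exact abs_add_le _ _
  calc |(fun x => g x / θ x) x - (fun x => g x / θ x) y|
      = |g x / θ x - g y / θ y| := rfl
    _ ≤ _ := e2
    _ ≤ |Lg| / l * ‖x - y‖ + A * |Lθ| / l ^ 2 * ‖x - y‖ := add_le_add a1 a2
    _ = _ := by ring

/-- The competitors are small if the dissipation is small. -/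
theorem clo_v (hPhi : PhiStatement) (hEsg : EsgStatement) (hOsc : OscStatement)
    (hThl : ThlStatement) {p : ℕ} {Ω : Set (Eu p)} {q m : Eu p → ℝ} {θ : Eu p → ℝ}
    {θ' : Eu p → Eu p} {θ'' : Eu p → Eu p →L[ℝ] Eu p} {n : ℕ} {ρ : ℕ → ℝ} (M K τ : ℝ)
    (hΩ : Dom Ω q) (cm : ContinuousOn m (closure Ω))
    (hnc : ∃ x ∈ closure Ω, ∃ y ∈ closure Ω, m x ≠ m y) (hW : Win n ρ)
    (hθ : Stdy Ω q m (ρ 0) θ θ' θ'') (hτ : 0 < τ) :
    ∃ δ : ℝ, 0 < δ ∧ ∀ (f : ℕ → Eu p → ℝ) (f' : ℕ → Eu p → Eu p),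
      (∀ i, i ≤ n → C1 Ω (f i) (f' i) ∧ LipOn Ω K (f i) ∧
        ∀ x ∈ closure Ω, 0 < f i x ∧ f i x ≤ M) →
      ∫ x in Ω, DxW n ρ θ θ' f f' x < δ →
      ∀ x ∈ closure Ω, qv n (fun i => f i x) 1 / θ x ≤ τ := by
  rcases Nat.eq_zero_or_pos n with rfl | hn
  · refine ⟨1, one_pos, fun f f' _ _ x _ => ?_⟩
    have : qv 0 (fun i => f i x) 1 = 0 := by simp [qv]
    rw [this, zero_div]
    exact hτ.le
  have hρ0 := hW.ord.pos
  have hK : 0 < Kr ρ := hW.kap.pos hn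
  obtain ⟨x1, hx1, x2, hx2, h12⟩ := stdy_not_const hOsc hThl hΩ cm hnc hθ
  have hΔ : 0 < |θ x1 - θ x2| := abs_pos.mpr (sub_ne_zero.mpr h12)
  obtain ⟨Kθ, -, hLθ⟩ := hThl p Ω q θ θ' θ'' hΩ hθ.c2 hθ.neu
  obtain ⟨l, B, hl, hlB, hb⟩ := stdy_bounds hΩ hθ
  have hB : 0 < B := lt_of_lt_of_le hl hlB
  have cθ : ContinuousOn θ (closure Ω) := hθ.c2.toC1.c0
  have pθ : ∀ x ∈ closure Ω, 0 < θ x := hθ.pos
  obtain ⟨η, hη⟩ : ∃ η : ℝ, η = τ / ((1 + B) / |θ x1 - θ x2| + 1) := ⟨_, rfl⟩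
  have hη0 : 0 < η := by rw [hη]; positivity
  have hη1 : (1 + B) * η / |θ x1 - θ x2| + η = τ := by
    rw [hη]
    field_simp
  obtain ⟨δ₁, hδ₁, h1⟩ := hOsc p Ω q (|(n * K)| / l + (n * |M|) * |Kθ| / l ^ 2) η hΩ hη0
  obtain ⟨δ₂, hδ₂, h2⟩ := hOsc p Ω q (n * K) η hΩ hη0
  refine ⟨min (ρ 0 / 2 * l ^ 2 * δ₁) (ρ 0 / 2 * Kr ρ * δ₂),
    lt_min (by positivity) (by positivity), ?_⟩
  intro f f' hf hD
  have hD1 := hD.trans_le (min_le_left _ _)
  have hD2 := hD.trans_le (min_le_right _ _)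
  have pf : ∀ i, i ≤ n → ∀ x ∈ closure Ω, 0 < f i x := fun i hi x hx => ((hf i hi).2.2 x hx).1
  obtain ⟨c1, c2, c3, cD⟩ := cont_DxW hPhi hθ (fun i hi => (hf i hi).1) pf
  have hRe : ∀ x ∈ closure Ω, 0 ≤ θ x ^ 3 * ReW n ρ (θ x) (fun i => f i x) := fun x hx =>
    mul_nonneg (pow_nonneg (pθ x hx).le 3)
      (reW_ge hEsg hW (pθ x hx) (g := fun i => f i x) fun i hi => pf i hi x hx).1
  obtain ⟨V, hV⟩ : ∃ V : Eu p → ℝ, V = fun x => qv n (fun i => f i x) 1 := ⟨_, rfl⟩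
  have V0 : ∀ x ∈ closure Ω, 0 ≤ V x := by
    intro x hx
    rw [hV]
    exact qv_nonneg fun i hi => (pf i hi x hx).le
  have VM : ∀ x ∈ closure Ω, V x ≤ n * |M| := by
    intro x hx
    rw [hV]
    change qv n (fun i => f i x) 1 ≤ _
    unfold qv
    refine (Finset.sum_le_sum (g := fun _ => |M|) fun i hi =>
      ((hf i (by have := (Finset.mem_Ico.mp hi).2; omega)).2.2 x hx).2.trans (le_abs_self M)).trans ?_
    rw [Finset.sum_const, Nat.card_Ico, nsmul_eq_mul, Nat.add_sub_cancel]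
  have LV : LipOn Ω (n * K) V := by
    intro x hx y hy
    rw [hV]
    change |qv n (fun i => f i x) 1 - qv n (fun i => f i y) 1| ≤ _
    unfold qv
    rw [← Finset.sum_sub_distrib]
    refine (Finset.abs_sum_le_sum_abs _ _).trans ?_
    refine (Finset.sum_le_sum fun i hi =>
      (hf i (by have := (Finset.mem_Ico.mp hi).2; omega)).2.1 x hx y hy).trans ?_
    rw [Finset.sum_const, Nat.card_Ico, nsmul_eq_mul, Nat.add_sub_cancel]
    linarith
  have VC1 : C1 Ω V (fun x => qv n (fun i => f' i x) 1) := by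
    rw [hV]
    unfold qv
    exact C1.sum _ fun i hi => (hf i (by have := (Finset.mem_Ico.mp hi).2; omega)).1
  have vC1 : C1 Ω (fun x => V x / θ x)
      (fun x => qv n (rg (θ x) (θ' x) (fun i => f i x) (fun i => f' i x)) 1) := by
    have g1 := ND.H47.clo_C1_div VC1 hθ.c2.toC1 fun x hx => (pθ x hx).ne'
    simp only [grad_v, div_eq_mul_inv]
    rw [hV] at g1 ⊢
    exact g1
  have Lv : LipOn Ω (|(n * K)| / l + (n * |M|) * |Kθ| / l ^ 2) (fun x => V x / θ x) :=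
    lip_div hl hb (fun x hx => by rw [abs_of_nonneg (V0 x hx)]; exact VM x hx)
      (by positivity) LV hLθ
  have i1 : ∫ x in Ω, ‖qv n (rg (θ x) (θ' x) (fun i => f i x) (fun i => f' i x)) 1‖ ^ 2 < δ₁ := by
    refine int_part hΩ (g := fun x => ‖qv n (rg (θ x) (θ' x) (fun i => f i x)
      (fun i => f' i x)) 1‖ ^ 2) cD (c2.norm.pow 2) (c := ρ 0 / 2 * l ^ 2) (by positivity) ?_ hD1
    intro x hx
    beta_reduce
    have g1 := hRe x hx
    have g2 : l ^ 2 ≤ θ x ^ 2 := pow_le_pow_left₀ hl.le (hb x hx).1 2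
    have g3 : l ^ 2 * ‖qv n (rg (θ x) (θ' x) (fun i => f i x) (fun i => f' i x)) 1‖ ^ 2 ≤
        θ x ^ 2 * ‖qv n (rg (θ x) (θ' x) (fun i => f i x) (fun i => f' i x)) 1‖ ^ 2 :=
      mul_le_mul_of_nonneg_right g2 (sq_nonneg _)
    have g4 : 0 ≤ Kr ρ * ‖qv n (fun i => f' i x) 1‖ ^ 2 := by positivity
    have g5 := mul_le_mul_of_nonneg_left (add_le_add g3 g4) (half_pos hρ0).le
    unfold DxW
    linarith
  have i2 : ∫ x in Ω, ‖qv n (fun i => f' i x) 1‖ ^ 2 < δ₂ := by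
    refine int_part hΩ (g := fun x => ‖qv n (fun i => f' i x) 1‖ ^ 2) cD (c3.norm.pow 2)
      (c := ρ 0 / 2 * Kr ρ) (by positivity) ?_ hD2
    intro x hx
    beta_reduce
    have g1 := hRe x hx
    have g4 : 0 ≤ ρ 0 / 2 * (θ x ^ 2 *
        ‖qv n (rg (θ x) (θ' x) (fun i => f i x) (fun i => f' i x)) 1‖ ^ 2) := by positivity
    unfold DxW
    linarith
  have o1 := h1 _ _ vC1 Lv i1
  have o2 := h2 _ _ VC1 LV i2
  have k1 := o1 x1 hx1 x2 hx2
  have k2 := o2 x1 hx1 x2 hx2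
  have v1 : V x1 / θ x1 ≤ (1 + B) * η / |θ x1 - θ x2| := by
    rw [le_div_iff₀ hΔ]
    have e : (V x1 / θ x1) * (θ x1 - θ x2) =
        (V x1 - V x2) - θ x2 * (V x1 / θ x1 - V x2 / θ x2) := by
      have a1 := (pθ x1 hx1).ne'
      have a2 := (pθ x2 hx2).ne'
      field_simp
      ring
    have a0 : 0 ≤ V x1 / θ x1 := div_nonneg (V0 x1 hx1) (pθ x1 hx1).le
    have e2 : V x1 / θ x1 * |θ x1 - θ x2| = |(V x1 / θ x1) * (θ x1 - θ x2)| := by
      rw [abs_mul, abs_of_nonneg a0]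
    rw [e2, e]
    refine (abs_sub _ _).trans ?_
    rw [abs_mul, abs_of_pos (pθ x2 hx2)]
    have a3 : θ x2 * |V x1 / θ x1 - V x2 / θ x2| ≤ B * η :=
      mul_le_mul (hb x2 hx2).2 k1.le (abs_nonneg _) hB.le
    linarith
  intro x hx
  have k3 := (abs_lt.mp (o1 x hx x1 hx1)).2
  have k4 : V x / θ x ≤ τ := by
    have : V x / θ x - V x1 / θ x1 < η := k3
    linarith
  rw [hV] at k4
  exact k4

/-- CLO. -/
theorem clo_st (hPhi : PhiStatement) (hEsg : EsgStatement) (hSup : SupStatement)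
    (hOsc : OscStatement) (hThl : ThlStatement) : CloWStatement := by
  intro p Ω q m θ θ' θ'' n ρ M K ε hΩ cm hnc hW hθ hε
  obtain ⟨Kθ, -, hLθ⟩ := hThl p Ω q θ θ' θ'' hΩ hθ.c2 hθ.neu
  obtain ⟨l, B, hl, hlB, hb⟩ := stdy_bounds hΩ hθ
  have hB : 0 < B := lt_of_lt_of_le hl hlB
  have cθ : ContinuousOn θ (closure Ω) := hθ.c2.toC1.c0
  have pθ : ∀ x ∈ closure Ω, 0 < θ x := hθ.pos
  have hρ0 := hW.ord.pos
  have hvol := hΩ.volume_real_pos
  obtain ⟨L, hL⟩ : ∃ L : ℝ, L = |K| / l + |M| * |Kθ| / l ^ 2 := ⟨_, rfl⟩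
  have hL0 : 0 ≤ L := by rw [hL]; positivity
  obtain ⟨δ₃, hδ₃, h3⟩ := hSup p Ω q (3 * L) ((ε / (2 * B)) ^ 3) hΩ (by positivity)
  obtain ⟨τ, hτ⟩ : ∃ τ : ℝ, τ = min 1 (min (ε / (2 * B)) (δ₃ / (4 * volume.real Ω))) :=
    ⟨_, rfl⟩
  have hτ0 : 0 < τ := by
    rw [hτ]
    exact lt_min one_pos (lt_min (by positivity) (by positivity))
  have hτ1 : τ ≤ 1 := by rw [hτ]; exact min_le_left _ _
  have hτ2 : τ ≤ ε / (2 * B) := by
    rw [hτ]; exact (min_le_right _ _).trans (min_le_left _ _)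
  have hτ3 : τ ≤ δ₃ / (4 * volume.real Ω) := by
    rw [hτ]; exact (min_le_right _ _).trans (min_le_right _ _)
  obtain ⟨δ₄, hδ₄, h4⟩ := clo_v hPhi hEsg hOsc hThl M K τ hΩ cm hnc hW hθ hτ0
  refine ⟨min δ₄ (min (l ^ 3 * (δ₃ / 8)) (ε / (2 * B))),
    lt_min hδ₄ (lt_min (by positivity) (by positivity)), ?_⟩
  intro f f' hf hf0 hD
  have hD1 := hD.trans_le (min_le_left _ _)
  have hD2 := hD.trans_le ((min_le_right _ _).trans (min_le_left _ _))
  have hv := h4 f f' hf hD1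
  have pf : ∀ i, i ≤ n → ∀ x ∈ closure Ω, 0 < f i x := fun i hi x hx => ((hf i hi).2.2 x hx).1
  obtain ⟨c1, c2, c3, cD⟩ := cont_DxW hPhi hθ (fun i hi => (hf i hi).1) pf
  have hRe := fun x hx => reW_ge hEsg hW (pθ x hx) (g := fun i => f i x)
    fun i hi => pf i hi x hx
  obtain ⟨P, hP⟩ : ∃ P : Eu p → ℝ, P = fun x => max 0 (1 - f 0 x / θ x) := ⟨_, rfl⟩
  have cP : ContinuousOn P (closure Ω) := by
    rw [hP]
    exact continuousOn_const.sup (continuousOn_const.sub ((hf 0 (Nat.zero_le n)).1.c0.div cθ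
      fun x hx => (pθ x hx).ne'))
  have P0 : ∀ x, 0 ≤ P x := by
    intro x
    rw [hP]
    exact le_max_left _ _
  have P1 : ∀ x ∈ closure Ω, P x ≤ 1 := by
    intro x hx
    rw [hP]
    have := div_pos (pf 0 (Nat.zero_le n) x hx) (pθ x hx)
    exact max_le zero_le_one (by linarith)
  have L0 : LipOn Ω L (fun x => f 0 x / θ x) := by
    rw [hL]
    refine lip_div hl hb (fun x hx => ?_) (abs_nonneg M) (hf 0 (Nat.zero_le n)).2.1 hLθ
    rw [abs_of_pos (pf 0 (Nat.zero_le n) x hx)]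
    exact ((hf 0 (Nat.zero_le n)).2.2 x hx).2.trans (le_abs_self M)
  have LP : LipOn Ω L P := by
    intro x hx y hy
    rw [hP]
    change |max 0 (1 - f 0 x / θ x) - max 0 (1 - f 0 y / θ y)| ≤ _
    have g1 := abs_max_sub_max_le_abs (1 - f 0 x / θ x) (1 - f 0 y / θ y) 0
    rw [max_comm _ (0 : ℝ), max_comm _ (0 : ℝ)] at g1
    refine g1.trans ?_
    have e : (1 - f 0 x / θ x) - (1 - f 0 y / θ y) = -(f 0 x / θ x - f 0 y / θ y) := by ring
    rw [e, abs_neg]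
    exact L0 x hx y hy
  have L1 : LipOn Ω (3 * L) (fun x => P x ^ 3) := by
    intro x hx y hy
    change |P x ^ 3 - P y ^ 3| ≤ _
    have e : P x ^ 3 - P y ^ 3 = (P x ^ 2 + P x * P y + P y ^ 2) * (P x - P y) := by ring
    rw [e, abs_mul, mul_assoc]
    have b1 := P1 x hx
    have b2 := P1 y hy
    have b3 := P0 x
    have b4 := P0 y
    have g1 : |P x ^ 2 + P x * P y + P y ^ 2| ≤ 3 := by
      rw [abs_of_nonneg (by positivity)]
      nlinarith
    exact mul_le_mul g1 (LP x hx y hy) (abs_nonneg _) (by norm_num)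
  have i0 : ∫ x in Ω, ReW n ρ (θ x) (fun i => f i x) < δ₃ / 8 := by
    refine int_part hΩ cD c1 (c := l ^ 3) (by positivity) ?_ hD2
    intro x hx
    have g1 : l ^ 3 * ReW n ρ (θ x) (fun i => f i x) ≤
        θ x ^ 3 * ReW n ρ (θ x) (fun i => f i x) :=
      mul_le_mul_of_nonneg_right (pow_le_pow_left₀ hl.le (hb x hx).1 3) (hRe x hx).1
    have g2 : 0 ≤ ρ 0 / 2 * (θ x ^ 2 *
        ‖qv n (rg (θ x) (θ' x) (fun i => f i x) (fun i => f' i x)) 1‖ ^ 2
          + Kr ρ * ‖qv n (fun i => f' i x) 1‖ ^ 2) := by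
      have := hW.nn
      positivity
    unfold DxW
    linarith
  have i1 : ∫ x in Ω, |P x ^ 3| < δ₃ := by
    have g1 : ∫ x in Ω, |P x ^ 3| ≤
        ∫ x in Ω, (4 * ReW n ρ (θ x) (fun i => f i x) + 2 * τ) := by
      refine setIntegral_mono_on (hΩ.integrableOn (cP.pow 3).abs)
        (hΩ.integrableOn ((continuousOn_const.mul c1).add continuousOn_const))
        hΩ.measurableSet ?_
      intro x hxΩ
      have hx : x ∈ closure Ω := subset_closure hxΩ
      rw [abs_of_nonneg (pow_nonneg (P0 x) 3)]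
      have g2 : P x ^ 3 ≤ 4 * ReW n ρ (θ x) (fun i => f i x) + 2 * P x *
          (qv n (fun i => f i x) 1 / θ x) ^ 2 := by
        rw [hP]
        exact (hRe x hx).2
      have g3 := hv x hx
      have g4 : 0 ≤ qv n (fun i => f i x) 1 / θ x :=
        div_nonneg (qv_nonneg fun i hi => (pf i hi x hx).le) (pθ x hx).le
      have g5 : (qv n (fun i => f i x) 1 / θ x) ^ 2 ≤ τ := by nlinarith
      have g6 : P x * (qv n (fun i => f i x) 1 / θ x) ^ 2 ≤ 1 * τ :=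
        mul_le_mul (P1 x hx) g5 (sq_nonneg _) zero_le_one
      linarith
    have I1 : IntegrableOn (fun x => 4 * ReW n ρ (θ x) (fun i => f i x)) Ω :=
      hΩ.integrableOn (continuousOn_const.mul c1)
    have I2 : IntegrableOn (fun _ : Eu p => 2 * τ) Ω := hΩ.integrableOn continuousOn_const
    rw [integral_add I1 I2, integral_const_mul, setIntegral_const, smul_eq_mul] at g1
    have g7 : volume.real Ω * (2 * τ) ≤ δ₃ / 2 := by
      rw [le_div_iff₀ (by positivity)] at hτ3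
      linarith
    linarith
  have j1 := h3 _ L1 i1
  intro x hx
  have k1 : P x < ε / (2 * B) := by
    have := j1 x hx
    rw [abs_of_nonneg (pow_nonneg (P0 x) 3)] at this
    exact lt_of_pow_lt_pow_left₀ 3 (by positivity) this
  have hxb := hb x hx
  have hxp := pθ x hx
  have kB : B * (ε / (2 * B)) = ε / 2 := by field_simp
  constructor
  · have k3 : 1 - f 0 x / θ x ≤ P x := by
      rw [hP]
      exact le_max_right _ _
    have k4 : θ x - f 0 x ≤ θ x * P x := by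
      have := mul_le_mul_of_nonneg_left k3 hxp.le
      have e : θ x * (1 - f 0 x / θ x) = θ x - f 0 x := by field_simp
      rwa [e] at this
    have k5 : θ x * P x ≤ B * (ε / (2 * B)) := mul_le_mul hxb.2 k1.le (P0 x) hB.le
    have k6 := hf0 x hx
    have k7 : min δ₄ (min (l ^ 3 * (δ₃ / 8)) (ε / (2 * B))) ≤ ε / (2 * B) :=
      (min_le_right _ _).trans (min_le_right _ _)
    have k8 : min δ₄ (min (l ^ 3 * (δ₃ / 8)) (ε / (2 * B))) * θ x ≤ (ε / (2 * B)) * B :=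
      mul_le_mul k7 hxb.2 hxp.le (by positivity)
    rw [abs_lt]
    constructor <;> linarith
  · intro i hi1 hin
    have k9 := hv x hx
    rw [div_le_iff₀ hxp] at k9
    have k10 : τ * θ x ≤ (ε / (2 * B)) * B := mul_le_mul hτ2 hxb.2 hxp.le (by positivity)
    have k11 : f i x ≤ qv n (fun j => f j x) 1 := by
      unfold qv
      exact Finset.single_le_sum (f := fun j => f j x) (fun j hj =>
        (pf j (by have := (Finset.mem_Ico.mp hj).2; omega) x hx).le)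
        (Finset.mem_Ico.mpr ⟨hi1, by omega⟩)
    linarith

end Pool.Agent.Lib.MP_4fbe7c_an.WN.H61
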